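import Pool.Agent.Lib_helper38.H4.Main

/-!
The generic `H_4`-free 3-hypertournament has a finite-language Ramsey expansion.
-/

open FirstOrder FirstOrder.Language CategoryTheory
open Pool.Agent.Lib_helper38.HT

namespace Pool.Agent.Results.MP_638395_co.OrderedRamsey

/-- The Fraisse limit of the class of finite `H_4`-free 3-hypertournaments exists, and (every
copy of) it has a finite-language Ramsey expansion. -/
theorem result :
    (∃ (M : Type) (_ : LR.Structure M) (_ : Countable M), IsFraisseLimit ClassW M) ∧
    ∀ (M : Type) [LR.Structure M] [Countable M], IsFraisseLimit ClassW M →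
      HasFiniteRamseyExpansion LR M :=
  main

end Pool.Agent.Results.MP_638395_co.OrderedRamsey
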